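import Pool.Agent.Helper45.CF.GoalsC
import Pool.Agent.Helper82.BD.NucA
import Pool.Agent.Helper39.CR.Parts6

/-!
# Project CF (MP_d97caa_an): NUAV, local approximation, varying fibres
-/

open scoped ComplexOrder ZeroAtInfty Topology ComplexConjugate
open TopologicalSpace Filter

namespace Pool.Agent.Helper85.CF2.NUAV

open Pool.Agent.Helper34.CAR Pool.Agent.Helper39.CR Pool.Agent.Helper45.CF
  Pool.Agent.Helper82.BD Pool.Agent.Helper44.CAR

noncomputable section

theorem norm_one_le' (L : Type) [CStarAlgebra L] : ‖(1 : L)‖ ≤ 1 := by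
  have h : ‖(1 : L)‖ * ‖(1 : L)‖ = ‖(1 : L)‖ := by
    have h1 := CStarRing.norm_star_mul_self (x := (1 : L))
    rw [star_one, mul_one] at h1
    exact h1.symm
  nlinarith [norm_nonneg (1 : L)]

theorem t : S_NUAV := by
  intro X A L _ _ _ _ ζ π hπ hcar F ε δ hε hδ x₀
  obtain ⟨τ, hτ1, -, hτ3, hτ4⟩ := p_CTR (L x₀) (hcar x₀)
  have hτ1' : τ 1 = 1 := hτ4 1 fun a => ⟨one_mul a, mul_one a⟩
  obtain ⟨e, j, -, -, hsub, hd⟩ := hcar x₀
  have hmono : ∀ i i', i ≤ i' → Set.range (j i) ⊆ Set.range (j i') := by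
    intro i i' hi
    induction i', hi using Nat.le_induction with
    | base => exact subset_rfl
    | succ n _ ih => exact ih.trans (hsub n)
  have happ : ∃ i, ∀ d ∈ F, ∃ x, ‖j i x - π x₀ d‖ < ε / 2 := by
    classical
    induction F using Finset.induction_on with
    | empty => exact ⟨0, fun d hd => absurd hd (Finset.notMem_empty d)⟩
    | insert d F _ ih =>
      obtain ⟨i, hi⟩ := ih
      obtain ⟨c, hc, hcb⟩ := Metric.dense_iff.1 hd (π x₀ d) (ε / 2) (by positivity)
      obtain ⟨i', hi'⟩ := Set.mem_iUnion.1 hcb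
      refine ⟨max i i', fun d' hd' => ?_⟩
      rcases Finset.mem_insert.1 hd' with rfl | h1
      · obtain ⟨x, hx⟩ := hmono i' (max i i') (le_max_right _ _) hi'
        refine ⟨x, ?_⟩
        rw [hx, ← dist_eq_norm]
        exact Metric.mem_ball.1 hc
      · obtain ⟨x, hx⟩ := hi d' h1
        obtain ⟨x', hx'⟩ := hmono i (max i i') (le_max_left _ _) ⟨x, rfl⟩
        exact ⟨x', by rw [hx']; exact hx⟩
  obtain ⟨i, hi⟩ := happ
  have hm : 0 < 2 ^ e i := by positivity
  let i0 : Fin (2 ^ e i) := ⟨0, hm⟩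
  choose c hc using fun p => hπ.surj x₀ (j i (mu i0 p))
  let φ : A →ₗ[ℂ] CStarMatrix (Fin (2 ^ e i)) (Fin (2 ^ e i)) ℂ :=
    { toFun := fun a => phi τ i0 (j i) (π x₀ a)
      map_add' := fun a b => by rw [map_add, map_add]
      map_smul' := fun r a => by rw [map_smul, map_smul, RingHom.id_apply] }
  have hφ : ∀ a, φ a = phi τ i0 (j i) (π x₀ a) := fun _ => rfl
  refine ⟨2 ^ e i, φ, c, {x | ‖π x (∑ p, star (c p) * c p)‖ < 1 + δ} ∩
    ⋂ a ∈ F, {x | ‖π x (qf (φ a) c - a)‖ < ε}, ?_, fun a => ?_, ?_, ?_, ?_⟩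
  · intro k a
    obtain ⟨c, hc⟩ := phi_cp τ i0 (j i) hτ1 k (CStarMatrix.ofMatrix fun p q => π x₀ (a p q))
    refine ⟨c, ?_⟩
    rw [← hc]
    refine CStarMatrix.ext fun p q => ?_
    rw [CStarMatrix.map_apply, CStarMatrix.map_apply, hφ]
    congr 1
    rw [CStarMatrix.mul_apply, CStarMatrix.mul_apply, map_sum]
    refine Finset.sum_congr rfl fun r _ => ?_
    rw [map_mul, CStarMatrix.star_apply, map_star]
    rfl
  · rw [hφ]
    exact (phi_norm τ i0 (j i) hτ1' hτ3 hτ1 _).trans (NonUnitalStarAlgHom.norm_apply_le (π x₀) a)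
  · refine IsOpen.inter (isOpen_lt (hπ.cont _) continuous_const) ?_
    exact isOpen_biInter_finset fun a _ => isOpen_lt (hπ.cont _) continuous_const
  · constructor
    · show ‖π x₀ (∑ p, star (c p) * c p)‖ < 1 + δ
      have h1 : π x₀ (∑ p, star (c p) * c p) = 1 := by
        rw [map_sum, ← map_one (j i), ← sum_mu, map_sum]
        refine Finset.sum_congr rfl fun p _ => ?_
        rw [map_mul, map_star, hc, ← map_star, ← map_mul, star_mu, mu_mu]
      rw [h1]
      linarith [norm_one_le' (L x₀)]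
    · refine Set.mem_iInter₂.2 fun a ha => ?_
      show ‖π x₀ (qf (φ a) c - a)‖ < ε
      have h1 : π x₀ (qf (φ a) c) = j i (φ a) := by
        conv_rhs => rw [mu_sum (φ a)]
        unfold qf
        rw [map_sum, map_sum]
        refine Finset.sum_congr rfl fun p _ => ?_
        rw [map_sum, map_sum]
        refine Finset.sum_congr rfl fun q _ => ?_
        rw [map_smul, map_smul, map_mul, map_star, hc, hc, ← map_star, ← map_mul, star_mu, mu_mu]
      obtain ⟨x, hx⟩ := hi a ha
      have h2 : j i (φ a) - π x₀ a =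
          j i (phi τ i0 (j i) (π x₀ a - j i x)) + (j i x - π x₀ a) := by
        rw [hφ, map_sub (phi τ i0 (j i)), phi_j τ i0 (j i) hτ1' hτ3, map_sub (j i)]
        abel
      rw [map_sub, h1, h2]
      calc ‖j i (phi τ i0 (j i) (π x₀ a - j i x)) + (j i x - π x₀ a)‖
          ≤ ‖j i (phi τ i0 (j i) (π x₀ a - j i x))‖ + ‖j i x - π x₀ a‖ := norm_add_le _ _
        _ ≤ ‖π x₀ a - j i x‖ + ‖j i x - π x₀ a‖ := by
            refine add_le_add ?_ le_rfl
            exact (NonUnitalStarAlgHom.norm_apply_le (j i) _).trans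
              (phi_norm τ i0 (j i) hτ1' hτ3 hτ1 _)
        _ < ε := by
            rw [norm_sub_rev (π x₀ a)]
            linarith
  · intro x hx
    exact ⟨hx.1, fun a ha => Set.mem_iInter₂.1 hx.2 a ha⟩

end

end Pool.Agent.Helper85.CF2.NUAV
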